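import Mathlib
import Pool.Agent.Lib.H66SC.Rep

/-!
# The supercongruence for `∑ C(-1/4,k) C(-1/2,k) 2^k`

For every prime `p > 5`, the sum over `0 ≤ k ≤ p - 1` is congruent to `2x - p/(2x)` modulo `p ^ 2`
if `p = x ^ 2 + 2 y ^ 2` with `x ≡ 1` modulo `4`, and to `0` modulo `p` if `p ≡ 5, 7` modulo `8`.
-/

open Finset Polynomial QuadraticAlgebra Pool.Agent.Lib.H66SC

set_option linter.unusedSectionVars false

namespace Pool.Agent.Results.MP_c35bdc_nt.Supercongruence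

/-- The generalized binomial coefficient `a (a-1) ⋯ (a-k+1) / k!`. -/
def gbinom (a : ℚ) (k : ℕ) : ℚ := (∏ i ∈ Finset.range k, (a - (i : ℚ))) / (k.factorial : ℚ)

/-- The sum `S(p) = ∑_{k=0}^{p-1} C(-1/4,k) C(-1/2,k) 2^k`. -/
def S (p : ℕ) : ℚ := ∑ k ∈ Finset.range p, gbinom (-1 / 4) k * gbinom (-1 / 2) k * 2 ^ k

/-- `u ≡ v (mod N)` for rationals: `N` divides the numerator of `u - v` in lowest terms. -/
def RatModEq (N : ℕ) (u v : ℚ) : Prop := (N : ℤ) ∣ (u - v).num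

variable {p : ℕ} [hp : Fact p.Prime]

lemma gbinom_half (k : ℕ) :
    gbinom (-1 / 2) k * 2 ^ k = (-1) ^ k * ((2 * k).choose k : ℕ) * ((2 : ℕ) : ℚ)⁻¹ ^ k := by
  induction k with
  | zero => simp [gbinom]
  | succ k ih =>
    have h1 : gbinom (-1 / 2) (k + 1) = gbinom (-1 / 2) k * ((-1 / 2 - k) / (k + 1)) := by
      unfold gbinom
      rw [prod_range_succ, Nat.factorial_succ]
      push_cast
      have : (k.factorial : ℚ) ≠ 0 := by exact_mod_cast k.factorial_ne_zero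
      field_simp
    have h2 : (((2 * (k + 1)).choose (k + 1) : ℕ) : ℚ)
        = 2 * (2 * k + 1) / (k + 1) * (((2 * k).choose k : ℕ) : ℚ) := by
      have h := congrArg (Nat.cast : ℕ → ℚ) (Nat.succ_mul_centralBinom_succ k)
      simp only [Nat.centralBinom] at h
      push_cast at h
      field_simp
      linear_combination h
    rw [h1, h2]
    calc gbinom (-1 / 2) k * ((-1 / 2 - k) / (k + 1)) * 2 ^ (k + 1)
        = (gbinom (-1 / 2) k * 2 ^ k) * (2 * ((-1 / 2 - k) / (k + 1))) := by ring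
      _ = _ := by
        rw [ih]
        push_cast
        field_simp
        ring

lemma eval_descPochhammer (x : ZMod (p ^ 2)) (k : ℕ) :
    (descPochhammer (ZMod (p ^ 2)) k).eval x = ∏ i ∈ range k, (x - (i : ZMod (p ^ 2))) := by
  induction k with
  | zero => simp
  | succ k ih => rw [descPochhammer_succ_eval, ih, prod_range_succ]

lemma four_unit (h2 : p ≠ 2) : IsUnit ((4 : ℕ) : ZMod (p ^ 2)) := by
  apply isUnit_natCast
  intro h
  have : p ∣ 2 ^ 2 := by simpa using h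
  exact h2 ((Nat.prime_dvd_prime_iff_eq hp.out Nat.prime_two).1 (hp.out.dvd_of_dvd_pow this))

/-- The rational sum reduces to the value of the polynomial at `-1/4`. -/
lemma rep_S (h2 : p ≠ 2) : Rep p (S p) ((SA p).eval (-((4 : ℕ) : ZMod (p ^ 2))⁻¹)) := by
  unfold S SA
  rw [eval_finsetSum]
  apply Rep.sum
  intro k hk
  rw [mul_assoc, gbinom_half, eval_mul, eval_C, eval_descPochhammer]
  have r4 : Rep p (-1 / 4 : ℚ) (-((4 : ℕ) : ZMod (p ^ 2))⁻¹) := by
    have := ((Rep.nat (p := p) 4).inv (four_unit h2)).neg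
    have e : (-1 / 4 : ℚ) = -((4 : ℕ) : ℚ)⁻¹ := by norm_num
    rw [e]; exact this
  have r2 : Rep p (((2 : ℕ) : ℚ)⁻¹) (((2 : ℕ) : ZMod (p ^ 2))⁻¹) :=
    (Rep.nat (p := p) 2).inv (isUnit_iff_exists_inv.2 ⟨_, two_inv h2⟩)
  have rk : Rep p ((k.factorial : ℚ)⁻¹) ((k.factorial : ZMod (p ^ 2))⁻¹) :=
    (Rep.nat (p := p) k.factorial).inv (isUnit_natCast (not_dvd_factorial hk))
  have rb : Rep p ((-1) ^ k * ((2 * k).choose k : ℕ) * ((2 : ℕ) : ℚ)⁻¹ ^ k) (beta p k) := by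
    unfold beta
    refine ((Rep.pow ?_ k).mul (Rep.nat _)).mul (r2.pow k)
    have := (Rep.nat (p := p) 1).neg
    simpa using this
  have rp : Rep p (∏ i ∈ range k, ((-1 / 4 : ℚ) - (i : ℚ)))
      (∏ i ∈ range k, (-((4 : ℕ) : ZMod (p ^ 2))⁻¹ - (i : ZMod (p ^ 2)))) :=
    Rep.prod fun i _ => r4.sub (Rep.nat i)
  have := (rb.mul rk).mul rp
  have e : gbinom (-1 / 4) k * ((-1) ^ k * ((2 * k).choose k : ℕ) * ((2 : ℕ) : ℚ)⁻¹ ^ k)
      = (-1) ^ k * ((2 * k).choose k : ℕ) * ((2 : ℕ) : ℚ)⁻¹ ^ k * (k.factorial : ℚ)⁻¹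
        * ∏ i ∈ range k, ((-1 / 4 : ℚ) - (i : ℚ)) := by
    unfold gbinom
    rw [div_eq_mul_inv]
    ring
  rw [e]
  exact this

/-- The second case of the supercongruence. -/
lemma case_odd (h5 : 5 < p) (h : p % 8 = 5 ∨ p % 8 = 7) : RatModEq p (S p) 0 := by
  have h2 : p ≠ 2 := by omega
  unfold RatModEq
  rw [sub_zero]
  refine Rep.dvd_num_one (rep_S h2) ?_
  have h4 := ZMod.mul_inv_of_unit _ (four_unit (p := p) h2)
  set q := ((4 : ℕ) : ZMod (p ^ 2))⁻¹ with hq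
  -- `-1/4` is congruent to an odd number `n < p`
  obtain ⟨n, t, hn, hodd, ht⟩ : ∃ n t : ℕ, n < p ∧ ¬ 2 ∣ n ∧ 4 * n + 1 = t * p := by
    rcases h with h | h
    · exact ⟨(p - 1) / 4, 1, by omega, by omega, by omega⟩
    · exact ⟨(3 * p - 1) / 4, 3, by omega, by omega, by omega⟩
  have hred : red p (-q) = red p (n : ZMod (p ^ 2)) := by
    have h6 : (4 : ZMod (p ^ 2)) * (n : ZMod (p ^ 2)) + 1 = t * p := by exact_mod_cast congrArg (Nat.cast : ℕ → ZMod (p ^ 2)) ht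
    have h7 : -q = (n : ZMod (p ^ 2)) + (p : ZMod (p ^ 2)) * (-(q * t)) := by
      push_cast at h4
      linear_combination (-q) * h6 + (n : ZMod (p ^ 2)) * h4
    rw [h7, map_add, map_mul, red_P, zero_mul, add_zero]
  have h8 : red p ((SA p).eval (-q)) = ((SA p).map (red p)).eval (red p (-q)) := by
    rw [eval_map, eval₂_at_apply]
  rw [h8, hred, eval_map, eval₂_at_apply, SA_eval_nat h2 hn, if_neg hodd, mul_zero, map_zero]

/-- The common last step of the first case. -/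
lemma final_step (h2 : p ≠ 2) {c a b : ℕ} {m : ℕ} {x : ℤ} {j : ℕ} {y g t : ZMod (p ^ 2)}
    (hm : p = 2 * m + 1) (hj : j ≤ m)
    (hc : (c : ZMod p) ≠ 0)
    (hcj : m.choose j = c)
    (hy : red p y = (c : ZMod p) * G p m a b + (c : ZMod p)⁻¹)
    (hx : (2 * x : ZMod (p ^ 2)) = (-1) ^ j * ((c : ZMod (p ^ 2)) + (p : ZMod (p ^ 2)) * y))
    (ht : -((4 : ℕ) : ZMod (p ^ 2))⁻¹ = ((2 * j : ℕ) : ZMod (p ^ 2)) + (p : ZMod (p ^ 2)) * t)
    (hg : red p g = G p m a b)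
    (hgt : red p g = 2⁻¹ * (red p t * (HK p (m - j) - HK p j) - (HK p m - HK p (m - j)))) :
    RatModEq (p ^ 2) (S p) (2 * x - p / (2 * x)) := by
  have hPP := P_sq p
  have hs : ((-1 : ZMod p) ^ j) * (-1) ^ j = 1 := by rw [← mul_pow]; simp
  have hredx : red p (2 * x : ZMod (p ^ 2)) = (-1) ^ j * (c : ZMod p) := by
    rw [hx, map_mul, map_pow, map_neg, map_one, map_add, map_mul, red_P, map_natCast]
    ring
  have hux : IsUnit (2 * x : ZMod (p ^ 2)) := by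
    apply isUnit_of_red
    rw [hredx]
    exact mul_ne_zero (pow_ne_zero _ (neg_ne_zero.2 one_ne_zero)) hc
  have r2x : Rep p (2 * x : ℚ) (2 * x : ZMod (p ^ 2)) := by
    have := (Rep.nat (p := p) 2).mul (Rep.int (p := p) x)
    exact_mod_cast this
  have rv : Rep p (2 * x - p / (2 * x) : ℚ) (2 * x - (p : ZMod (p ^ 2)) * (2 * x : ZMod (p ^ 2))⁻¹) := by
    rw [div_eq_mul_inv]
    exact r2x.sub ((Rep.nat p).mul (r2x.inv hux))
  have hval : (SA p).eval (-((4 : ℕ) : ZMod (p ^ 2))⁻¹)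
      = 2 * x - (p : ZMod (p ^ 2)) * (2 * x : ZMod (p ^ 2))⁻¹ := by
    rw [ht, SA_value h2 hm hj t g hgt, hcj, hx]
    have key : (p : ZMod (p ^ 2)) * ((-1) ^ j * c * g)
        = (p : ZMod (p ^ 2)) * ((-1) ^ j * y - (2 * x : ZMod (p ^ 2))⁻¹) := by
      apply P_mul_congr
      rw [map_mul, map_mul, map_pow, map_neg, map_one, map_natCast, hg, map_sub, map_mul, hy,
        red_inv hux, hredx, map_pow, map_neg, map_one, mul_inv]
      have : ((-1 : ZMod p) ^ j)⁻¹ = (-1) ^ j := inv_eq_of_mul_eq_one_right hs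
      rw [this]
      ring
    rw [← hx]
    linear_combination key - hx
  have hfin := (rep_S h2).sub rv
  rw [hval, sub_self] at hfin
  exact hfin.dvd_num

/-- The first case of the supercongruence, `p ≡ 1` modulo `8`. -/
lemma case_one {l : ℕ} (hl : 0 < l) (hpl : p = 8 * l + 1) {x y : ℤ}
    (h : (p : ℤ) = x ^ 2 + 2 * y ^ 2) (hx : x % 4 = 1) :
    RatModEq (p ^ 2) (S p) (2 * x - p / (2 * x)) := by
  have h2 : p ≠ 2 := by omega
  obtain ⟨g, hg⟩ := IsCyclic.exists_generator (α := (ZMod p)ˣ)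
  obtain ⟨X, k, hX, hXk⟩ := Phi_one_parity hl hpl g hg
  have h4 := four_sums_one hl hpl g hg
  rw [hX] at h4
  -- `Phi p g` is divisible by `4`
  obtain ⟨Y, hY⟩ : ∃ Y : ℤ, (p : ℤ) = X ^ 2 + 2 * Y ^ 2 := by
    set w := Phi p (g : ZMod p)
    have e1 : w ^ 2 = 2 * (4 * ((p : ℤ) - X ^ 2)) := by linarith
    have e2 : (2 : ℤ) ∣ w := Int.prime_two.dvd_of_dvd_pow ⟨_, e1⟩
    obtain ⟨w', hw'⟩ := e2
    have e3 : w' ^ 2 = 2 * ((p : ℤ) - X ^ 2) := by
      rw [hw'] at e1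
      apply mul_left_cancel₀ (show (4 : ℤ) ≠ 0 by norm_num)
      linear_combination e1
    obtain ⟨Y, hY⟩ : (2 : ℤ) ∣ w' := Int.prime_two.dvd_of_dvd_pow ⟨_, e3⟩
    refine ⟨Y, ?_⟩
    rw [hY] at e3
    apply mul_left_cancel₀ (show (2 : ℤ) ≠ 0 by norm_num)
    linear_combination -e3
  have hxX : 2 * x = (-1) ^ l * (-2 * X) := by
    rcases Nat.even_or_odd l with he | ho
    · rw [he.neg_one_pow]
      obtain ⟨r, hr⟩ := he
      rcases rep_unique h hY with h' | h'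
      · exfalso; omega
      · rw [h']; ring
    · rw [ho.neg_one_pow]
      obtain ⟨r, hr⟩ := ho
      rcases rep_unique h hY with h' | h'
      · rw [h']; ring
      · exfalso; omega
  obtain ⟨yy, hyy⟩ := red_surj (p := p) ((((4 * l).choose l : ℕ) : ZMod p) * G p (4 * l) l (3 * l)
      + (((4 * l).choose l : ℕ) : ZMod p)⁻¹)
  obtain ⟨gg, hgg⟩ := red_surj (p := p) (G p (4 * l) l (3 * l))
  have hval := Phi_one_value hl hpl g hg hyy
  rw [hX] at hval
  have h2u : (2 : ZMod (p ^ 2)) * ((2 : ℕ) : ZMod (p ^ 2))⁻¹ = 1 := by exact_mod_cast two_inv (p := p) h2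
  set hf := ((2 : ℕ) : ZMod (p ^ 2))⁻¹
  have hval' : -2 * (X : ZMod (p ^ 2)) = ((4 * l).choose l : ZMod (p ^ 2)) + (p : ZMod (p ^ 2)) * yy := by
    push_cast at hval
    linear_combination (-hf) * hval
      + (((4 * l).choose l : ZMod (p ^ 2)) + (p : ZMod (p ^ 2)) * yy + 2 * X) * h2u
  have hxA : (2 * x : ZMod (p ^ 2))
      = (-1) ^ l * (((4 * l).choose l : ZMod (p ^ 2)) + (p : ZMod (p ^ 2)) * yy) := by
    rw [← hval']
    exact_mod_cast congrArg (Int.cast : ℤ → ZMod (p ^ 2)) hxX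
  have h4i := ZMod.mul_inv_of_unit _ (four_unit (p := p) h2)
  have h4K : (4 : ZMod p) ≠ 0 := by
    have h2K := two_ne_zero_K (p := p) h2
    have : (4 : ZMod p) = 2 * 2 := by norm_num
    rw [this]; exact mul_ne_zero h2K h2K
  refine final_step (c := (4 * l).choose l) (a := l) (b := 3 * l) (m := 4 * l) (j := l) (y := yy)
    (g := gg) (t := -((4 : ℕ) : ZMod (p ^ 2))⁻¹) h2 (by omega) (by omega)
    (choose_ne_zero_K (by omega) (by omega)) rfl hyy hxA ?_ hgg ?_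
  · have hpc := congrArg (Nat.cast : ℕ → ZMod (p ^ 2)) hpl
    push_cast at hpc h4i ⊢
    set q := (4 : ZMod (p ^ 2))⁻¹
    linear_combination q * hpc + 2 * (l : ZMod (p ^ 2)) * h4i
  · rw [hgg, map_neg, red_inv (four_unit h2), map_natCast]
    unfold G
    have h2K := two_ne_zero_K (p := p) h2
    rw [show 4 * l - l = 3 * l by omega]
    push_cast
    field_simp
    ring

/-- The first case of the supercongruence, `p ≡ 3` modulo `8`. -/
lemma case_three {k : ℕ} (hk : 0 < k) (hpk : p = 8 * k + 3) {x y : ℤ}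
    (h : (p : ℤ) = x ^ 2 + 2 * y ^ 2) (hx : x % 4 = 1) :
    RatModEq (p ^ 2) (S p) (2 * x - p / (2 * x)) := by
  have h2 : p ≠ 2 := by omega
  have hF : Fact (∀ r : ZMod p, r ^ 2 ≠ -1 + 0 * r) := fact_three (by omega)
  obtain ⟨g, hg⟩ := IsCyclic.exists_generator (α := (FF p)ˣ)
  obtain ⟨a1, a2, a3, a4, a5⟩ := torus_data hk hpk g hg rfl
  obtain ⟨j, hXj⟩ := XF_one_parity hpk a1 a2 a3
  have hY := four_sums_three hk hpk g hg rfl
  have hxX : 2 * x = (-1) ^ (3 * k + 1) * (2 * XF p ((g : FF p) ^ (4 * (p - 1))) (2 * k + 1) 1) := by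
    set X := XF p ((g : FF p) ^ (4 * (p - 1))) (2 * k + 1) 1
    rcases Nat.even_or_odd k with he | ho
    · have : Odd (3 * k + 1) := by
        obtain ⟨r, hr⟩ := he
        exact ⟨3 * r, by omega⟩
      rw [this.neg_one_pow]
      obtain ⟨r, hr⟩ := he
      rcases rep_unique h hY.symm with h' | h'
      · exfalso; omega
      · rw [h']; ring
    · have : Even (3 * k + 1) := by
        obtain ⟨r, hr⟩ := ho
        exact ⟨3 * r + 2, by omega⟩
      rw [this.neg_one_pow]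
      obtain ⟨r, hr⟩ := ho
      rcases rep_unique h hY.symm with h' | h'
      · rw [h']; ring
      · exfalso; omega
  obtain ⟨yy, hyy⟩ := red_surj (p := p) ((((4 * k + 1).choose k : ℕ) : ZMod p) * G p (4 * k + 1) k (3 * k + 1)
      + (((4 * k + 1).choose k : ℕ) : ZMod p)⁻¹)
  obtain ⟨gg, hgg⟩ := red_surj (p := p) (G p (4 * k + 1) k (3 * k + 1))
  have hval := XF_one_value hk hpk a1 a2 a3 hyy
  have hxA : (2 * x : ZMod (p ^ 2))
      = (-1) ^ (3 * k + 1) * (((4 * k + 1).choose k : ZMod (p ^ 2)) + (p : ZMod (p ^ 2)) * yy) := by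
    rw [← hval]
    exact_mod_cast congrArg (Int.cast : ℤ → ZMod (p ^ 2)) hxX
  have h4i := ZMod.mul_inv_of_unit _ (four_unit (p := p) h2)
  have h4K : (4 : ZMod p) ≠ 0 := by
    have h2K := two_ne_zero_K (p := p) h2
    have : (4 : ZMod p) = 2 * 2 := by norm_num
    rw [this]; exact mul_ne_zero h2K h2K
  refine final_step (c := (4 * k + 1).choose k) (a := k) (b := 3 * k + 1) (m := 4 * k + 1)
    (j := 3 * k + 1) (y := yy)
    (g := gg) (t := 3 * -((4 : ℕ) : ZMod (p ^ 2))⁻¹) h2 (by omega) (by omega)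
    (choose_ne_zero_K (by omega) (by omega)) (Nat.choose_symm_of_eq_add (by omega)) hyy hxA ?_ hgg ?_
  · have hpc := congrArg (Nat.cast : ℕ → ZMod (p ^ 2)) hpk
    push_cast at hpc h4i ⊢
    set q := (4 : ZMod (p ^ 2))⁻¹
    linear_combination 3 * q * hpc + (6 * (k : ZMod (p ^ 2)) + 2) * h4i
  · rw [hgg, map_mul, map_neg, red_inv (four_unit h2), map_natCast, map_ofNat]
    unfold G
    have h2K := two_ne_zero_K (p := p) h2
    rw [show 4 * k + 1 - (3 * k + 1) = k by omega]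
    push_cast
    field_simp
    ring

/-- **The supercongruence.** For every prime `p > 5`: if `p = x ^ 2 + 2 y ^ 2` with `x ≡ 1` modulo
`4`, then `S(p) ≡ 2x - p/(2x)` modulo `p ^ 2`; and if `p ≡ 5, 7` modulo `8`, then `S(p) ≡ 0`
modulo `p`. -/
theorem result (p : ℕ) (hp : p.Prime) (h5 : 5 < p) :
    (∀ x y : ℤ, (p : ℤ) = x ^ 2 + 2 * y ^ 2 → x % 4 = 1 →
      RatModEq (p ^ 2) (S p) (2 * (x : ℚ) - (p : ℚ) / (2 * (x : ℚ)))) ∧
    (p % 8 = 5 ∨ p % 8 = 7 → RatModEq p (S p) 0) := by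
  have : Fact p.Prime := ⟨hp⟩
  refine ⟨fun x y h hx => ?_, fun h => case_odd h5 h⟩
  -- `p ≡ 1, 3` modulo `8`
  have hodd : p % 2 = 1 := by
    rcases hp.eq_two_or_odd with h' | h'
    · omega
    · exact h'
  have hy8 : (y ^ 2 % 8 = 0 ∨ y ^ 2 % 8 = 1 ∨ y ^ 2 % 8 = 4) := by
    have : y % 8 = 0 ∨ y % 8 = 1 ∨ y % 8 = 2 ∨ y % 8 = 3 ∨ y % 8 = 4 ∨ y % 8 = 5 ∨ y % 8 = 6 ∨ y % 8 = 7 := by
      omega
    rcases this with h | h | h | h | h | h | h | h <;> simp [pow_two, Int.mul_emod, h]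
  have hx8 : x ^ 2 % 8 = 1 := by
    have : x % 8 = 1 ∨ x % 8 = 5 := by omega
    rcases this with h | h <;> simp [pow_two, Int.mul_emod, h]
  have hp8 : p % 8 = 1 ∨ p % 8 = 3 := by omega
  rcases hp8 with h8 | h8
  · exact case_one (l := p / 8) (by omega) (by omega) h hx
  · exact case_three (k := p / 8) (by omega) (by omega) h hx

end Pool.Agent.Results.MP_c35bdc_nt.Supercongruence
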